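import Pool.Agent.W945.Pw.Stm2

set_option autoImplicit false

/-! PW2-SEPLOG: separators of constant size give logarithmic pathwidth. -/

namespace Pool.Agent.W196.Pw.SEPLOG

open Finset Pool.Agent.W945.Pw

theorem main : SEPLOG.Stm := by
  intro V _ _ R θ c hθ hθ1 hc hsep W
  have hlog : 0 < Real.log (1 / θ) := by
    apply Real.log_pos
    rw [lt_div_iff₀ hθ]; linarith
  have hlog' : Real.log (1 / θ) = - Real.log θ := by
    rw [one_div, Real.log_inv]
  induction hn : W.card using Nat.strong_induction_on generalizing W with
  | _ n ih =>
    subst hn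
    rcases W.eq_empty_or_nonempty with h0 | hne
    · subst h0
      refine ⟨0, fun _ => ∅, ?_, ?_, ?_, ?_, ?_⟩
      · intro t; exact Subset.refl _
      · intro v hv; simp at hv
      · intro u hu; simp at hu
      · intro v t₁ t₂ t₃ _ _ h _; exact h
      · intro t
        simp only [card_empty, Nat.cast_zero, Real.log_zero, zero_div, add_zero, mul_one]
        exact hc
    · obtain ⟨A, S, B, hW, hAB, hA, hB, hS⟩ := hsep W hne
      rw [Real.rpow_zero, mul_one] at hS
      have hWpos : (0 : ℝ) < W.card := by exact_mod_cast hne.card_pos
      have hW1 : (1 : ℝ) ≤ W.card := by exact_mod_cast hne.card_pos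
      have hlogW : 0 ≤ Real.log W.card := Real.log_nonneg hW1
      have hlt : θ * W.card < W.card := by nlinarith
      have htgt : c ≤ c * (1 + Real.log W.card / Real.log (1 / θ)) := by
        have h1 : 0 ≤ Real.log W.card / Real.log (1 / θ) := div_nonneg hlogW hlog.le
        nlinarith
      have key : ∀ X : Finset V, (X.card : ℝ) ≤ θ * W.card → ∃ β, HasPathDec R X β ∧
          β + S.card ≤ c * (1 + Real.log W.card / Real.log (1 / θ)) := by
        intro X hX
        rcases X.eq_empty_or_nonempty with hX0 | hXne
        · subst hX0
          refine ⟨0, ⟨0, fun _ => ∅, ?_, ?_, ?_, ?_, ?_⟩, ?_⟩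
          · intro t; exact Subset.refl _
          · intro v hv; simp at hv
          · intro u hu; simp at hu
          · intro v t₁ t₂ t₃ _ _ h _; exact h
          · intro t
            simp
          · linarith
        · have hX' : X.card < W.card := by
            have : (X.card : ℝ) < W.card := lt_of_le_of_lt hX hlt
            exact_mod_cast this
          refine ⟨_, ih X.card hX' X rfl, ?_⟩
          have hXpos : (0 : ℝ) < X.card := by exact_mod_cast hXne.card_pos
          have h1 : Real.log X.card ≤ Real.log W.card - Real.log (1 / θ) := by
            have h2 := Real.log_le_log hXpos hX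
            rw [Real.log_mul hθ.ne' hWpos.ne'] at h2
            rw [hlog']; linarith
          have h2 : Real.log X.card / Real.log (1 / θ) ≤
              Real.log W.card / Real.log (1 / θ) - 1 := by
            have h3 := div_le_div_of_nonneg_right h1 hlog.le
            rw [sub_div, div_self hlog.ne'] at h3
            exact h3
          have h3 := mul_le_mul_of_nonneg_left h2 hc
          nlinarith
      obtain ⟨βA, hdA, hbA⟩ := key A hA
      obtain ⟨βB, hdB, hbB⟩ := key B hB
      exact Pool.Agent.W778.Pw.SEP.glue R W A S B βA βB _ hW hAB hdA hdB hbA hbB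
        (hS.trans htgt)

end Pool.Agent.W196.Pw.SEPLOG
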